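import Pool.Agent.H5CS.Free

set_option autoImplicit false

namespace Pool.Agent.Results.MP_23ab47_al.Centralizers

open Pool.Agent.H5CS

/-- Let `n ≥ 3`, let `G` be a simple quotient of the free group on `n` letters by a characteristic
subgroup of finite index, let `1 ≤ k < n` and let `K` be the subgroup of `G` generated by the
images of the first `k` letters. Then `(K × K) ^ (n - k)` embeds in the group of automorphisms of
`G` that fix `K` pointwise. For `k = 1` the group `K` is cyclic of order at least `4`, and for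
`k ≥ 2` it is not commutative and has order at least `20 ^ (2 ^ (k - 2))`. If `Out G` is solvable
then `(K × K) ^ (n - k)` embeds in the centralizer of `K` in `G`. -/
theorem result : ∀ n : ℕ, 3 ≤ n →
    ∀ (H : Subgroup (FreeGroup (Fin n))) [H.Characteristic] [H.FiniteIndex],
      IsSimpleGroup (FreeGroup (Fin n) ⧸ H) →
      ∀ k : ℕ, 1 ≤ k → k < n → ∃ K : Subgroup (FreeGroup (Fin n) ⧸ H),
        K = Subgroup.closure {g | ∃ i : Fin n, i.val < k ∧
          g = QuotientGroup.mk (FreeGroup.of i)} ∧
        (k = 1 → IsCyclic K ∧ 4 ≤ Nat.card K) ∧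
        (2 ≤ k → (¬ ∀ a ∈ K, ∀ b ∈ K, a * b = b * a) ∧ 20 ^ (2 ^ (k - 2)) ≤ Nat.card K) ∧
        (∃ Θ : (Fin (n - k) → K × K) →* MulAut (FreeGroup (Fin n) ⧸ H),
          Function.Injective Θ ∧ ∀ f, ∀ a ∈ K, Θ f a = a) ∧
        ((∃ m : ℕ, derivedSeries (MulAut (FreeGroup (Fin n) ⧸ H)) m ≤
            (MulAut.conj (G := FreeGroup (Fin n) ⧸ H)).range) →
          ∃ Ψ : (Fin (n - k) → K × K) →* FreeGroup (Fin n) ⧸ H,
            Function.Injective Ψ ∧ ∀ f, ∀ a ∈ K, Ψ f * a = a * Ψ f) := by
  intro n hn H _ _ hs k hk1 hk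
  have hfin : Finite (FreeGroup (Fin n) ⧸ H) := inferInstance
  have hx := homog_gens H
  refine ⟨HH (gens H) k, ?_, ?_, ?_, ?_, ?_⟩
  · unfold HH
    congr 1
    ext g
    constructor
    · rintro ⟨i, hi, rfl⟩
      exact ⟨i, hi, rfl⟩
    · rintro ⟨i, hi, rfl⟩
      exact ⟨i, hi, rfl⟩
  · rintro rfl
    refine ⟨?_, hx.card_one (by omega)⟩
    have h0 : HH (gens H) 1 = Subgroup.zpowers (gens H ⟨0, by omega⟩) := by
      unfold HH
      rw [Subgroup.zpowers_eq_closure]
      congr 1
      ext g
      simp only [Set.mem_image, Set.mem_ofPred_eq, Set.mem_singleton_iff]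
      constructor
      · rintro ⟨i, hi, rfl⟩
        congr 1
        exact Fin.ext (by simpa using hi)
      · rintro rfl
        exact ⟨⟨0, by omega⟩, by simp, rfl⟩
    rw [h0]
    infer_instance
  · intro hk2
    constructor
    · intro hcomm
      have h01 : (⟨0, by omega⟩ : Fin n) ≠ ⟨1, by omega⟩ := by
        intro h
        have := congrArg Fin.val h
        simp at this
      exact hx.not_commute (by omega) h01
        (hcomm _ (mem_HH (by change 0 < k; omega)) _ (mem_HH (by change 1 < k; omega)))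
    · obtain ⟨m, rfl⟩ : ∃ m, k = m + 2 := ⟨k - 2, by omega⟩
      have h1 := hx.card_lower (by omega) (k := m) (by omega)
      simpa using h1
  · exact ⟨theta hx k, theta_injective hx (by omega) k, fun f a ha => thetaFun_fix hx k f a ha⟩
  · rintro ⟨m, hm⟩
    exact hx.inner_embed hn hm k

end Pool.Agent.Results.MP_23ab47_al.Centralizers
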