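import Pool.Agent.H5CS.Free
import Pool.Agent.H5.CB.Growth3

set_option autoImplicit false

namespace Pool.Agent.Results.MP_23ab47_al.OrderBound

open Pool.Agent.H5CS Pool.Agent.H5.CB

/-- Let `n ≥ 3` and let `G` be the quotient of the free group on `n` letters by a characteristic
subgroup of finite index. If `G` is simple then `|Aut G| ≥ 100 ^ (2 * n * 3 ^ (n - 3))` and
`|G| ≥ 100 ^ (2 * 3 ^ (n - 3))`; and if moreover `Out G` is solvable (some term of the derived
series of `Aut G` consists of inner automorphisms) then `|G| ≥ 100 ^ (2 * n * 3 ^ (n - 3))`. -/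
theorem result : ∀ n : ℕ, 3 ≤ n →
    ∀ (H : Subgroup (FreeGroup (Fin n))) [H.Characteristic] [H.FiniteIndex],
      IsSimpleGroup (FreeGroup (Fin n) ⧸ H) →
      100 ^ (2 * n * 3 ^ (n - 3)) ≤ Nat.card (MulAut (FreeGroup (Fin n) ⧸ H)) ∧
      100 ^ (2 * 3 ^ (n - 3)) ≤ Nat.card (FreeGroup (Fin n) ⧸ H) ∧
      ((∃ m : ℕ, derivedSeries (MulAut (FreeGroup (Fin n) ⧸ H)) m ≤
          (MulAut.conj (G := FreeGroup (Fin n) ⧸ H)).range) →
        100 ^ (2 * n * 3 ^ (n - 3)) ≤ Nat.card (FreeGroup (Fin n) ⧸ H)) := by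
  intro n hn H _ _ hs
  have hfin : Finite (FreeGroup (Fin n) ⧸ H) := inferInstance
  have hx := homog_gens H
  refine ⟨?_, card3 hx hn, ?_⟩
  · have h1 := count3 hx hn ⊤ (fun _ _ => trivial)
    rwa [Subgroup.card_top] at h1
  · rintro ⟨m, hm⟩
    have h1 := count3 hx hn _ (fun φ hφ => Subgroup.subset_closure hφ)
    have h2 := hx.le_inner hn hm
    have hfin2 : Finite (MulAut (FreeGroup (Fin n) ⧸ H)) := finite_mulAut
    calc 100 ^ (2 * n * 3 ^ (n - 3)) ≤ _ := h1
      _ ≤ Nat.card (MulAut.conj (G := FreeGroup (Fin n) ⧸ H)).range :=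
          Subgroup.card_le_of_le h2
      _ ≤ Nat.card (FreeGroup (Fin n) ⧸ H) :=
          Nat.card_le_card_of_surjective _ (MonoidHom.rangeRestrict_surjective _)

end Pool.Agent.Results.MP_23ab47_al.OrderBound
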