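import Pool.Agent.H68.CQ.Proj

set_option autoImplicit false

namespace Pool.Agent.Results.MP_23ab47_al.RepresentationDegree

open Pool.Agent.H5CS Pool.Agent.H68.CQ Module

/-- Adjoint representation of `PGL`. -/
private lemma adj {F : Type*} [Field F] {d : ℕ} {G : Type*} [Group G]
    (ρ : G →* Matrix.ProjGenLinGroup (Fin d) F) (hρ : ρ ≠ 1) :
    ∃ π : G →* Module.End F (Matrix (Fin d) (Fin d) F), ∃ g, π g ≠ 1 := by
  have hsc : (cj F (Matrix (Fin d) (Fin d) F)).comp
      (Matrix.GeneralLinearGroup.scalar (Fin d)) = 1 := by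
    ext1 c
    apply AlgEquiv.ext
    intro t
    change ((Matrix.GeneralLinearGroup.scalar (Fin d) c :
        Matrix.GeneralLinearGroup (Fin d) F) : Matrix (Fin d) (Fin d) F) * t *
      (((Matrix.GeneralLinearGroup.scalar (Fin d) c)⁻¹ :
        Matrix.GeneralLinearGroup (Fin d) F) : Matrix (Fin d) (Fin d) F) = t
    have h1 : ((Matrix.GeneralLinearGroup.scalar (Fin d) c :
        Matrix.GeneralLinearGroup (Fin d) F) : Matrix (Fin d) (Fin d) F) =
        algebraMap F (Matrix (Fin d) (Fin d) F) c := rfl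
    rw [h1, Algebra.commutes, mul_assoc, ← h1, Units.mul_inv, mul_one]
  let θ : G →* (Matrix (Fin d) (Fin d) F ≃ₐ[F] Matrix (Fin d) (Fin d) F) :=
    (Matrix.ProjGenLinGroup.lift (cj F (Matrix (Fin d) (Fin d) F)) hsc).comp ρ
  let π : G →* Module.End F (Matrix (Fin d) (Fin d) F) :=
    { toFun := fun g => (θ g).toLinearMap
      map_one' := by
        ext1 t
        change θ 1 t = t
        rw [map_one, AlgEquiv.one_apply]
      map_mul' := by
        intro g h
        ext1 t
        change θ (g * h) t = θ g (θ h t)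
        rw [theta_mul] }
  refine ⟨π, ?_⟩
  by_contra hcon
  push Not at hcon
  apply hρ
  ext g
  obtain ⟨a, ha⟩ := Matrix.ProjGenLinGroup.mk_surjective (ρ g)
  rw [MonoidHom.one_apply, ← ha, Matrix.ProjGenLinGroup.mk_eq_one, Subgroup.mem_center_iff]
  intro b
  have h1 : θ g (b : Matrix (Fin d) (Fin d) F) = b := by
    have h2 := LinearMap.congr_fun (hcon g) (b : Matrix (Fin d) (Fin d) F)
    exact h2
  have h3 : cj F (Matrix (Fin d) (Fin d) F) a (b : Matrix (Fin d) (Fin d) F) = b := by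
    refine Eq.trans ?_ h1
    change _ = Matrix.ProjGenLinGroup.lift (cj F (Matrix (Fin d) (Fin d) F)) hsc (ρ g)
      (b : Matrix (Fin d) (Fin d) F)
    rw [← ha]
    rfl
  have h5 : a * b * a⁻¹ = b := Units.ext h3
  calc b * a = a * b * a⁻¹ * a := by rw [h5]
    _ = a * b := by group

/-- Let `n ≥ 3`, let `H` be a characteristic subgroup of finite index of the free group on `n`
letters such that the quotient `G` is simple, and let `F` be a field.  If `G` has a nontrivial
homomorphism to `GL (Fin d) F` then `2 ^ n ≤ |Out G| ^ 2 * d ^ 5`; if it has a nontrivial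
homomorphism to `PGL (Fin d) F` then `2 ^ n ≤ |Out G| ^ 2 * d ^ 10`, and if moreover `Out G` is
solvable (some term of the derived series of `Aut G` consists of inner automorphisms) then
`2 ^ n ≤ d ^ 5`. -/
theorem result : ∀ n : ℕ, 3 ≤ n →
    ∀ (H : Subgroup (FreeGroup (Fin n))) [H.Characteristic] [H.FiniteIndex],
      IsSimpleGroup (FreeGroup (Fin n) ⧸ H) →
      ∀ (F : Type*) [Field F] (d : ℕ),
        (∀ ρ : FreeGroup (Fin n) ⧸ H →* Matrix.GeneralLinearGroup (Fin d) F, ρ ≠ 1 →
          2 ^ n ≤ (MulAut.conj (G := FreeGroup (Fin n) ⧸ H)).range.index ^ 2 * d ^ 5) ∧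
        (∀ ρ : FreeGroup (Fin n) ⧸ H →* Matrix.ProjGenLinGroup (Fin d) F, ρ ≠ 1 →
          2 ^ n ≤ (MulAut.conj (G := FreeGroup (Fin n) ⧸ H)).range.index ^ 2 * d ^ 10) ∧
        (∀ ρ : FreeGroup (Fin n) ⧸ H →* Matrix.ProjGenLinGroup (Fin d) F, ρ ≠ 1 →
          (∃ m : ℕ, derivedSeries (MulAut (FreeGroup (Fin n) ⧸ H)) m ≤
            (MulAut.conj (G := FreeGroup (Fin n) ⧸ H)).range) → 2 ^ n ≤ d ^ 5) := by
  intro n hn H _ _ hs F _ d
  have hfin : Finite (FreeGroup (Fin n) ⧸ H) := inferInstance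
  have hfin2 : Finite (MulAut (FreeGroup (Fin n) ⧸ H)) := finite_mulAut
  have hx := homog_gens H
  have key : ∀ (V : Type _) [AddCommGroup V] [Module F V] [FiniteDimensional F V]
      (π : FreeGroup (Fin n) ⧸ H →* Module.End F V), (∃ g, π g ≠ 1) →
      2 ^ n ≤ (MulAut.conj (G := FreeGroup (Fin n) ⧸ H)).range.index ^ 2 *
        (finrank F V) ^ 5 := by
    intro V _ _ _ π hπ
    have h1 := degree_bound hx (by omega) ⊤ (fun _ _ => trivial) π hπ
    rwa [Subgroup.relIndex_top_right] at h1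
  refine ⟨?_, ?_, ?_⟩
  · intro ρ hρ
    have h1 := key (Fin d → F)
      (((Matrix.toLinAlgEquiv' (R := F) (n := Fin d)).toAlgHom : Matrix (Fin d) (Fin d) F →*
        Module.End F (Fin d → F)).comp ((Units.coeHom _).comp ρ)) (by
      by_contra hcon
      push Not at hcon
      apply hρ
      refine MonoidHom.ext fun g => ?_
      apply Units.ext
      apply (Matrix.toLinAlgEquiv' (R := F) (n := Fin d)).injective
      rw [MonoidHom.one_apply, Units.val_one, map_one]
      exact hcon g)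
    rwa [Module.finrank_fin_fun] at h1
  · intro ρ hρ
    obtain ⟨π, hπ⟩ := adj ρ hρ
    have h1 := key (Matrix (Fin d) (Fin d) F) π hπ
    have h2 : finrank F (Matrix (Fin d) (Fin d) F) = d ^ 2 := by
      rw [Module.finrank_matrix]
      simp [pow_two]
    rw [h2, ← pow_mul] at h1
    exact h1
  · rintro ρ hρ ⟨m, hm⟩
    exact proj_bound hx hn (fun φ hφ => hx.le_inner hn hm (Subgroup.subset_closure hφ)) ρ hρ

end Pool.Agent.Results.MP_23ab47_al.RepresentationDegree
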