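import Pool.Agent.H5.LD.Top

set_option autoImplicit false

namespace Pool.Agent.Results.MP_23ab47_al.SmallDegree

open Pool.Agent.H5CS

/-- Let `n ≥ 3` and let `H` be a characteristic subgroup of finite index of the free group on `n`
letters such that the quotient `G` is simple and `Out G` is solvable (some term of the derived
series of `Aut G` consists of inner automorphisms).  Then for every field `F` and every natural
number `d` with `d ≤ 2 * n - 2` every homomorphism from `G` to `PGL (Fin d) F` is trivial. -/
theorem result : ∀ n : ℕ, 3 ≤ n →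
    ∀ (H : Subgroup (FreeGroup (Fin n))) [H.Characteristic] [H.FiniteIndex],
      IsSimpleGroup (FreeGroup (Fin n) ⧸ H) →
      (∃ m : ℕ, derivedSeries (MulAut (FreeGroup (Fin n) ⧸ H)) m ≤
        (MulAut.conj (G := FreeGroup (Fin n) ⧸ H)).range) →
      ∀ (F : Type*) [Field F] (d : ℕ), d ≤ 2 * n - 2 →
        ∀ ρ : FreeGroup (Fin n) ⧸ H →* Matrix.ProjGenLinGroup (Fin d) F, ρ = 1 := by
  intro n hn H _ _ hs ⟨m, hm⟩ F _ d hd ρ
  have hfin : Finite (FreeGroup (Fin n) ⧸ H) := inferInstance
  by_contra hρ
  have h1 := Pool.Agent.H5.LD.bound (homog_gens H) hn hm ρ hρ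
  omega

end Pool.Agent.Results.MP_23ab47_al.SmallDegree
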